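import Pool.Agent.W907.SG.Stmts

/-!
# SG-STEP1: adding a vertex and coning
-/

set_option autoImplicit false
set_option maxHeartbeats 400000

namespace Pool.Agent.W975.SG

open Module Pool.Agent.W907.SG

/-! ### invariance of the Betti numbers -/

section Inv

variable {V : Type} [Fintype V] [LinearOrder V] {F M M' : Type} [Field F] [AddCommGroup M]
  [Module F M] [AddCommGroup M'] [Module F M'] (G : SimpleGraph V) (ρ : V → M →ₗ[F] M)
  (ρ' : V → M' →ₗ[F] M') (e : M ≃ₗ[F] M') (he : ∀ v m, e (ρ v m) = ρ' v (e m))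

/-- the induced map on chains -/
def chE (V : Type) (e : M ≃ₗ[F] M') : (Finset V → M) ≃ₗ[F] (Finset V → M') :=
  LinearEquiv.piCongrRight fun _ => e

omit [Fintype V] [LinearOrder V] in
lemma chE_apply (c : Finset V → M) (T : Finset V) : chE V e c T = e (c T) := rfl

lemma chE_bd (c : Finset V → M) : chE V e (bd F c) = bd F (chE V e c) := by
  funext T
  rw [chE_apply, bd_apply, bd_apply, map_sum]
  refine Finset.sum_congr rfl fun v _ => ?_
  rw [map_zsmul, chE_apply]

omit [Fintype V] [LinearOrder V] in
include he in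
lemma chE_KK (A S : Set V) (i : ℕ) : (KK G ρ A S i).map (chE V e : (Finset V → M) →ₗ[F] _) =
    KK G ρ' A S i := by
  ext c
  constructor
  · rintro ⟨d, ⟨h1, h2⟩, rfl⟩
    refine ⟨fun T hT => ?_, fun T t ht => ?_⟩
    · show e (d T) = 0
      rw [h1 T hT, map_zero]
    · show ρ' t (e (d T)) = -(e (d T))
      rw [← he, h2 T t ht, map_neg]
  · rintro ⟨h1, h2⟩
    refine ⟨(chE V e).symm c, ⟨fun T hT => ?_, fun T t ht => ?_⟩, (chE V e).apply_symm_apply c⟩
    · show e.symm (c T) = 0
      rw [h1 T hT, map_zero]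
    · show ρ t (e.symm (c T)) = -(e.symm (c T))
      apply e.injective
      rw [he, LinearEquiv.apply_symm_apply, map_neg, LinearEquiv.apply_symm_apply, h2 T t ht]

include he in
lemma beta_inv (A S : Set V) (i : ℕ) : beta G ρ A S i = beta G ρ' A S i := by
  have hZ : (ZZ G ρ A S i).map (chE V e : (Finset V → M) →ₗ[F] _) = ZZ G ρ' A S i := by
    unfold ZZ
    rw [← chE_KK G ρ ρ' e he A S i, Submodule.map_inf _ (chE V e).injective]
    congr 1
    ext c
    constructor
    · rintro ⟨d, hd, rfl⟩
      rw [LinearMap.mem_ker]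
      show bd F (chE V e d) = 0
      rw [← chE_bd, (LinearMap.mem_ker.1 hd : bd F d = 0), map_zero]
    · intro hc
      refine ⟨(chE V e).symm c, ?_, (chE V e).apply_symm_apply c⟩
      rw [SetLike.mem_coe, LinearMap.mem_ker]
      apply (chE V e).injective
      rw [chE_bd, LinearEquiv.apply_symm_apply, LinearMap.mem_ker.1 hc, map_zero]
  have hB : (BB G ρ A S i).map (chE V e : (Finset V → M) →ₗ[F] _) = BB G ρ' A S i := by
    unfold BB
    rw [← chE_KK G ρ ρ' e he A S (i + 1), ← Submodule.map_comp, ← Submodule.map_comp]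
    congr 1
    exact LinearMap.ext fun c => chE_bd e c
  unfold beta
  rw [← hZ, ← hB, LinearEquiv.finrank_map_eq, LinearEquiv.finrank_map_eq]

end Inv

/-! ### actions -/

section Act

variable {V : Type}

/-- an action of `W_G` of 3-type -/
structure Act (G : SimpleGraph V) {Y : Type} (b : V → Y → Y) : Prop where
  inv : ∀ v y, b v (b v y) = y
  comm : ∀ u v, G.Adj u v → ∀ y, b u (b v y) = b v (b u y)
  ptype : ∀ l : List V, EvenWord l → ∃ k : ℕ, ∀ x, (fun y => l.foldr b y)^[3 ^ k] x = x

lemma Act.of_PSet {G : SimpleGraph V} {X : Type} (P : PSet 3 G X) : Act G P.a :=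
  ⟨P.inv, P.comm, P.ptype⟩

lemma Act.unit (G : SimpleGraph V) : Act G (fun (_ : V) (y : Unit) => y) :=
  ⟨fun _ _ => rfl, fun _ _ _ _ => rfl, fun _ _ => ⟨0, fun _ => rfl⟩⟩

lemma foldr_prod {Y Z : Type} (b : V → Y → Y) (c : V → Z → Z) (l : List V) (z : Y × Z) :
    l.foldr (fun v (z : Y × Z) => (b v z.1, c v z.2)) z = (l.foldr b z.1, l.foldr c z.2) := by
  induction l with
  | nil => rfl
  | cons v l ih => simp only [List.foldr_cons, ih]

lemma iter_prod {Y Z : Type} (f : Y → Y) (g : Z → Z) (n : ℕ) (z : Y × Z) :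
    (fun z : Y × Z => (f z.1, g z.2))^[n] z = (f^[n] z.1, g^[n] z.2) := by
  induction n generalizing z with
  | zero => rfl
  | succ n ih => rw [Function.iterate_succ_apply, ih]; rfl

lemma iter_id {Y : Type} (f : Y → Y) {n : ℕ} (h : ∀ x, f^[n] x = x) (m : ℕ) (x : Y) :
    f^[n * m] x = x := by
  induction m with
  | zero => rfl
  | succ m ih => rw [Nat.mul_succ, Function.iterate_add_apply, h, ih]

lemma Act.prod {G : SimpleGraph V} {Y Z : Type} {b : V → Y → Y} {c : V → Z → Z} (hb : Act G b)
    (hc : Act G c) : Act G (fun v (z : Y × Z) => (b v z.1, c v z.2)) := by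
  refine ⟨fun v y => ?_, fun u v h y => ?_, fun l hl => ?_⟩
  · simp only [hb.inv, hc.inv]
  · simp only [hb.comm u v h, hc.comm u v h]
  · obtain ⟨k, hk⟩ := hb.ptype l hl
    obtain ⟨m, hm⟩ := hc.ptype l hl
    refine ⟨k + m, fun x => ?_⟩
    have h1 : (fun y : Y × Z => l.foldr (fun v (z : Y × Z) => (b v z.1, c v z.2)) y) =
        fun z : Y × Z => ((fun y => l.foldr b y) z.1, (fun y => l.foldr c y) z.2) := by
      funext z
      exact foldr_prod b c l z
    rw [h1, iter_prod (fun y => l.foldr b y) (fun y => l.foldr c y), pow_add, iter_id _ hk,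
      mul_comm, iter_id _ hm]

lemma Act.restrict {U : Type} {G : SimpleGraph V} {H : SimpleGraph U} {Y : Type} {b : V → Y → Y}
    (hb : Act G b) (φ : U → V) (hφ : ∀ u u', H.Adj u u' → G.Adj (φ u) (φ u')) :
    Act H (fun u => b (φ u)) := by
  refine ⟨fun v y => hb.inv _ y, fun u v h y => hb.comm _ _ (hφ u v h) y, fun l hl => ?_⟩
  obtain ⟨k, hk⟩ := hb.ptype (l.map φ) (fun χ => by
    have := hl (fun u => χ (φ u))
    rw [List.map_map]
    exact this)
  refine ⟨k, fun x => ?_⟩
  have h1 : (fun y : Y => l.foldr (fun u => b (φ u)) y) = fun y => (l.map φ).foldr b y := by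
    funext y
    rw [List.foldr_map]
  rw [h1]
  exact hk x

open Classical in
/-- extension of an action by the identity -/
noncomputable def extA (A : Set V) {X : Type} (a : A → X → X) (u : V) (x : X) : X :=
  if h : u ∈ A then a ⟨u, h⟩ x else x

lemma extA_mem {A : Set V} {X : Type} (a : A → X → X) (u : A) (x : X) :
    extA A a u x = a u x := by
  unfold extA
  rw [dif_pos u.2]

lemma extA_notMem {A : Set V} {X : Type} (a : A → X → X) {u : V} (h : u ∉ A) (x : X) :
    extA A a u x = x := by
  unfold extA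
  rw [dif_neg h]

lemma Act.ext {G : SimpleGraph V} {A : Set V} {X : Type} {a : A → X → X}
    (ha : Act (G.induce A) a) : Act G (extA A a) := by
  classical
  refine ⟨fun v y => ?_, fun u v h y => ?_, fun l hl => ?_⟩
  · by_cases hv : v ∈ A
    · have := extA_mem a ⟨v, hv⟩
      simp only [] at this
      rw [this, this, ha.inv]
    · rw [extA_notMem a hv, extA_notMem a hv]
  · by_cases hu : u ∈ A
    · by_cases hv : v ∈ A
      · have h1 := extA_mem a ⟨u, hu⟩
        have h2 := extA_mem a ⟨v, hv⟩
        simp only [] at h1 h2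
        rw [h1, h2, h1, h2]
        exact ha.comm ⟨u, hu⟩ ⟨v, hv⟩ h y
      · rw [extA_notMem a hv, extA_notMem a hv]
    · rw [extA_notMem a hu, extA_notMem a hu]
  · -- the restricted word
    have key : ∀ l : List V, ∃ l' : List A, (∀ y, l.foldr (extA A a) y = l'.foldr a y) ∧
        ∀ χ : A → ℤˣ, (l'.map χ).prod =
          (l.map (fun u => if h : u ∈ A then χ ⟨u, h⟩ else 1)).prod := by
      intro l
      induction l with
      | nil => exact ⟨[], fun _ => rfl, fun _ => rfl⟩
      | cons u l ih =>
        obtain ⟨l', h1, h2⟩ := ih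
        by_cases hu : u ∈ A
        · refine ⟨⟨u, hu⟩ :: l', fun y => ?_, fun χ => ?_⟩
          · rw [List.foldr_cons, List.foldr_cons, h1]
            exact extA_mem a ⟨u, hu⟩ _
          · rw [List.map_cons, List.prod_cons, List.map_cons, List.prod_cons, h2, dif_pos hu]
        · refine ⟨l', fun y => ?_, fun χ => ?_⟩
          · rw [List.foldr_cons, h1, extA_notMem a hu]
          · rw [List.map_cons, List.prod_cons, dif_neg hu, one_mul, h2]
    obtain ⟨l', h1, h2⟩ := key l
    obtain ⟨k, hk⟩ := ha.ptype l' (fun χ => by rw [h2]; exact hl _)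
    refine ⟨k, fun x => ?_⟩
    have h3 : (fun y : X => l.foldr (extA A a) y) = fun y => l'.foldr a y := funext h1
    rw [h3]
    exact hk x

open Classical in
/-- the flips -/
noncomputable def flp (u : V) (s : V → Bool) : V → Bool := Function.update s u (!(s u))

lemma flp_self (u : V) (s : V → Bool) : flp u s u = !(s u) := by
  classical
  unfold flp
  rw [Function.update_self]

lemma flp_other {u w : V} (h : w ≠ u) (s : V → Bool) : flp u s w = s w := by
  classical
  unfold flp
  rw [Function.update_of_ne h]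

lemma act_flp (G : SimpleGraph V) : Act G (flp : V → (V → Bool) → (V → Bool)) := by
  classical
  refine ⟨fun v y => ?_, fun u v h y => ?_, fun l hl => ?_⟩
  · funext w
    by_cases hw : w = v
    · subst hw
      rw [flp_self, flp_self, Bool.not_not]
    · rw [flp_other hw, flp_other hw]
  · funext w
    have huv : u ≠ v := h.ne
    by_cases hw : w = u
    · subst hw
      rw [flp_self, flp_other huv, flp_other huv, flp_self]
    · rw [flp_other hw]
      by_cases hw' : w = v
      · subst hw'
        rw [flp_self, flp_self, flp_other hw]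
      · rw [flp_other hw', flp_other hw', flp_other hw]
  · refine ⟨0, fun x => ?_⟩
    show l.foldr flp x = x
    have key : ∀ (l : List V) (w : V), l.foldr flp x w =
        if (l.map (fun u => if u = w then (-1 : ℤˣ) else 1)).prod = 1 then x w else !(x w) := by
      intro l w
      induction l with
      | nil => simp
      | cons u l ih =>
        rw [List.foldr_cons, List.map_cons, List.prod_cons]
        by_cases hu : u = w
        · subst hu
          rw [flp_self, ih, if_pos rfl]
          rcases Int.units_eq_one_or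
            (l.map (fun v => if v = u then (-1 : ℤˣ) else 1)).prod with h1 | h1
          · rw [h1, if_pos rfl, if_neg (by decide)]
          · rw [h1, if_neg (by decide), if_pos (by decide), Bool.not_not]
        · rw [flp_other (Ne.symm hu), ih, if_neg hu, one_mul]
    funext w
    rw [key, if_pos (hl _)]

/-- the set with signs -/
noncomputable def mkP {G : SimpleGraph V} {Y : Type} {b : V → Y → Y} (hb : Act G b) :
    PSet 3 G (Y × (V → Bool)) where
  a := fun v z => (b v z.1, flp v z.2)
  inv := (hb.prod (act_flp G)).inv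
  comm := (hb.prod (act_flp G)).comm
  sgn := fun v z => z.2 v
  sgn_self := fun v z => flp_self v z.2
  sgn_other := fun _ _ h z => flp_other h z.2
  ptype := (hb.prod (act_flp G)).ptype

end Act

/-! ### the bound -/

lemma bound (hTR : S_TR) (hML : S_ML) {V : Type} [Fintype V] [LinearOrder V] (G : SimpleGraph V)
    (A : Set V) [Fintype A] {X Y : Type} [Fintype X] [Fintype Y] (P : PSet 3 (G.induce A) X)
    {b : V → Y → Y} (hb : Act G b) (i : ℕ) :
    beta G (pull (ZMod 3) (fun v (z : X × Y) => (extA A P.a v z.1, b v z.2))) A ∅ i ≤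
      Fintype.card Y * beta (G.induce A) (pull (ZMod 3) P.a) Set.univ ∅ i := by
  have h1 := hTR A V (ZMod 3) (X × Y → ZMod 3) G (G.induce A)
    (pull (ZMod 3) (fun v (z : X × Y) => (extA A P.a v z.1, b v z.2))) (fun u => (u : V))
    (Subtype.strictMono_coe _) (fun u u' => Iff.rfl) i
  rw [Subtype.range_coe] at h1
  rw [h1]
  have h2 : (fun u : A => pull (ZMod 3)
      (fun v (z : X × Y) => (extA A P.a v z.1, b v z.2)) (u : V)) =
      pull (ZMod 3) (fun (u : A) (z : X × Y) => (P.a u z.1, b (u : V) z.2)) := by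
    funext u
    apply LinearMap.ext
    intro f
    funext z
    rw [pull_apply, pull_apply, extA_mem]
  rw [h2]
  have hb' : Act (G.induce A) (fun u : A => b (u : V)) :=
    hb.restrict (H := G.induce A) (fun u => (u : V)) (fun _ _ h => h)
  exact hML A X Y (G.induce A) P.a P.sgn (fun u => b (u : V)) P.inv P.comm P.sgn_self P.sgn_other
    hb'.inv hb'.comm hb'.ptype i

lemma inv_set {V : Type} [Fintype V] [LinearOrder V] (G : SimpleGraph V) {F X X' : Type} [Field F]
    (a : V → X → X) (a' : V → X' → X') (e : X ≃ X') (he : ∀ v x, e (a v x) = a' v (e x))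
    (A S : Set V) (i : ℕ) : beta G (pull F a) A S i = beta G (pull F a') A S i := by
  refine beta_inv G (pull F a) (pull F a') (LinearEquiv.funCongrLeft F F e.symm) ?_ A S i
  intro v m
  funext x
  show m (a v (e.symm x)) = m (e.symm (a' v x))
  congr 1
  apply e.injective
  rw [he, e.apply_symm_apply, e.apply_symm_apply]

/-- STEP1 -/
theorem step1 (hV : S_VERT) (hE : S_EIG) (hTR : S_TR) (hML : S_ML) : S_STEP1 := by
  classical
  intro V hfin G v i h1 h2 instF instL N
  letI : Fintype ↥({v}ᶜ : Set V) := Fintype.ofFinite _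
  obtain ⟨X1, _, _, P1, hP1⟩ := h1 inferInstance inferInstance (2 * N)
  have hins : insert v ({v}ᶜ : Set V) = Set.univ := by
    ext u
    simp only [Set.mem_insert_iff, Set.mem_compl_iff, Set.mem_singleton_iff, Set.mem_univ,
      iff_true]
    exact em _
  cases i with
  | zero =>
    refine ⟨X1 × (V → Bool), inferInstance, inferInstance, mkP (Act.ext (Act.of_PSet P1)), ?_⟩
    have b1 := (hV V (ZMod 3) (X1 × (V → Bool) → ZMod 3) G
      (pull (ZMod 3) (mkP (Act.ext (Act.of_PSet P1))).a) {v}ᶜ ∅ v (by simp) (by simp)).1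
    rw [hins] at b1
    have b2 : beta G (pull (ZMod 3) (mkP (Act.ext (Act.of_PSet P1))).a) {v}ᶜ ∅ 0 ≤ _ :=
      bound hTR hML G {v}ᶜ P1 (act_flp G) 0
    rw [Fintype.card_prod]
    refine (Nat.mul_le_mul_left N (b1.trans b2)).trans ?_
    have b3 : N * beta (G.induce ({v}ᶜ : Set V)) (pull (ZMod 3) P1.a) Set.univ ∅ 0 ≤
        Fintype.card X1 := le_trans (by
          rw [mul_assoc]
          omega) hP1
    calc N * (Fintype.card (V → Bool) *
          beta (G.induce ({v}ᶜ : Set V)) (pull (ZMod 3) P1.a) Set.univ ∅ 0)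
        = (N * beta (G.induce ({v}ᶜ : Set V)) (pull (ZMod 3) P1.a) Set.univ ∅ 0) *
          Fintype.card (V → Bool) := by ring
      _ ≤ _ := Nat.mul_le_mul_right _ b3
  | succ j =>
    letI : Fintype ↥(G.neighborSet v) := Fintype.ofFinite _
    obtain ⟨X2, _, _, P2, hP2⟩ := h2 j rfl inferInstance inferInstance (2 * N)
    have act1 : Act G (extA ({v}ᶜ : Set V) P1.a) := Act.ext (Act.of_PSet P1)
    have act2 : Act G (extA (G.neighborSet v) P2.a) := Act.ext (Act.of_PSet P2)
    refine ⟨(X1 × X2) × (V → Bool), inferInstance, inferInstance, mkP (act1.prod act2), ?_⟩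
    have b0 := (hV V (ZMod 3) ((X1 × X2) × (V → Bool) → ZMod 3) G
      (pull (ZMod 3) (mkP (act1.prod act2)).a) {v}ᶜ ∅ v (by simp) (by simp)).2 j
    rw [hins] at b0
    have hA : ({v}ᶜ : Set V) ∩ G.neighborSet v = G.neighborSet v := by
      ext u
      simp only [Set.mem_inter_iff, Set.mem_compl_iff, Set.mem_singleton_iff,
        SimpleGraph.mem_neighborSet, and_iff_right_iff_imp]
      intro h hu
      exact h.ne hu.symm
    rw [hA] at b0
    have b1 := hE V (ZMod 3) ((X1 × X2) × (V → Bool) → ZMod 3) G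
      (pull (ZMod 3) (mkP (act1.prod act2)).a) (G.neighborSet v) ∅ v (by decide)
      (fun m => by
        funext x
        rw [pull_apply, pull_apply, (mkP (act1.prod act2)).inv])
      (fun u hu m => by
        have hu' : G.Adj u v := by
          rcases hu with hu | hu
          · exact ((G.mem_neighborSet v u).1 hu).symm
          · exact absurd hu (by simp)
        funext x
        rw [pull_apply, pull_apply, pull_apply, pull_apply,
          (mkP (act1.prod act2)).comm u v hu']) j
    have c1 : beta G (pull (ZMod 3) (mkP (act1.prod act2)).a) {v}ᶜ ∅ (j + 1) ≤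
        Fintype.card (X2 × (V → Bool)) *
          beta (G.induce ({v}ᶜ : Set V)) (pull (ZMod 3) P1.a) Set.univ ∅ (j + 1) := by
      have := bound hTR hML G {v}ᶜ P1 (act2.prod (act_flp G)) (j + 1)
      rw [← inv_set G (mkP (act1.prod act2)).a _ (Equiv.prodAssoc X1 X2 (V → Bool))
        (fun _ _ => rfl)] at this
      exact this
    have c2 : beta G (pull (ZMod 3) (mkP (act1.prod act2)).a) (G.neighborSet v) ∅ j ≤
        Fintype.card (X1 × (V → Bool)) *
          beta (G.induce (G.neighborSet v)) (pull (ZMod 3) P2.a) Set.univ ∅ j := by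
      have := bound hTR hML G (G.neighborSet v) P2 (act1.prod (act_flp G)) j
      rw [← inv_set G (mkP (act1.prod act2)).a _
        (((Equiv.prodComm X1 X2).prodCongr (Equiv.refl (V → Bool))).trans
          (Equiv.prodAssoc X2 X1 (V → Bool))) (fun _ _ => rfl)] at this
      exact this
    have key := b0.trans (Nat.add_le_add c1 (b1.trans c2))
    rw [Fintype.card_prod] at key
    rw [Fintype.card_prod, Fintype.card_prod]
    rw [Fintype.card_prod] at key
    generalize beta G (pull (ZMod 3) (mkP (act1.prod act2)).a) Set.univ ∅ (j + 1) = β at key ⊢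
    generalize beta (G.induce ({v}ᶜ : Set V)) (pull (ZMod 3) P1.a) Set.univ ∅ (j + 1) = β1 at key hP1
    generalize beta (G.induce (G.neighborSet v)) (pull (ZMod 3) P2.a) Set.univ ∅ j = β2 at key hP2
    generalize Fintype.card X1 = n1 at *
    generalize Fintype.card X2 = n2 at *
    generalize Fintype.card (V → Bool) = f at *
    have k1 : N * β ≤ N * (n2 * f * β1 + n1 * f * β2) := Nat.mul_le_mul_left N key
    have k2 : n2 * f * (2 * N * β1) ≤ n2 * f * n1 := Nat.mul_le_mul_left _ hP1
    have k3 : n1 * f * (2 * N * β2) ≤ n1 * f * n2 := Nat.mul_le_mul_left _ hP2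
    have k4 : 2 * (N * β) ≤ 2 * (n1 * n2 * f) := by
      calc 2 * (N * β) ≤ 2 * (N * (n2 * f * β1 + n1 * f * β2)) := Nat.mul_le_mul_left 2 k1
        _ = n2 * f * (2 * N * β1) + n1 * f * (2 * N * β2) := by ring
        _ ≤ n2 * f * n1 + n1 * f * n2 := Nat.add_le_add k2 k3
        _ = 2 * (n1 * n2 * f) := by ring
    omega

/-- STEPC -/
theorem stepc (hC : S_CONE) (hTR : S_TR) (hML : S_ML) : S_STEPC := by
  classical
  intro V hfin G s i hs h1 instF instL N
  letI : Fintype ↥({s}ᶜ : Set V) := Fintype.ofFinite _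
  obtain ⟨X1, _, _, P1, hP1⟩ := h1 inferInstance inferInstance N
  have hins : insert s ({s}ᶜ : Set V) = Set.univ := by
    ext u
    simp only [Set.mem_insert_iff, Set.mem_compl_iff, Set.mem_singleton_iff, Set.mem_univ,
      iff_true]
    exact em _
  have act1 : Act G (extA ({s}ᶜ : Set V) P1.a) := Act.ext (Act.of_PSet P1)
  refine ⟨X1 × (V → Bool), inferInstance, inferInstance, mkP act1, ?_⟩
  have b1 := hC V (ZMod 3) (X1 × (V → Bool) → ZMod 3) G
    (pull (ZMod 3) (mkP act1).a) {s}ᶜ s (by decide) (by simp) (fun u hu => hs u hu)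
    (fun m => by
      funext x
      rw [pull_apply, pull_apply, (mkP act1).inv])
    (fun u hu m => by
      funext x
      rw [pull_apply, pull_apply, pull_apply, pull_apply,
        (mkP act1).comm u s (hs u hu).symm]) i
  rw [hins] at b1
  have b2 : beta G (pull (ZMod 3) (mkP act1).a) {s}ᶜ ∅ i ≤ _ :=
    bound hTR hML G {s}ᶜ P1 (act_flp G) i
  rw [Fintype.card_prod]
  refine (Nat.mul_le_mul_left N (b1.trans b2)).trans ?_
  calc N * (Fintype.card (V → Bool) *
        beta (G.induce ({s}ᶜ : Set V)) (pull (ZMod 3) P1.a) Set.univ ∅ i)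
      = (N * beta (G.induce ({s}ᶜ : Set V)) (pull (ZMod 3) P1.a) Set.univ ∅ i) *
        Fintype.card (V → Bool) := by ring
    _ ≤ _ := Nat.mul_le_mul_right _ hP1

end Pool.Agent.W975.SG
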